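import Pool.Agent.H66PP.Lin

/-!
# Cohomology with its submotives and correspondences: definitions
-/

set_option autoImplicit false

open Module AlgebraicGeometry

universe u v w

namespace Pool.Agent.H66PP

open Pool.Agent.Y143 Pool.Agent.Y163.MW

section

variable {Ω : Type w} [Field Ω] {V V' : Type v} [AddCommGroup V] [Module Ω V] [AddCommGroup V']
  [Module Ω V']

/-- The elements of `G` which are orthogonal to `S` for the form `B`. -/
def ortho (G S : Submodule Ω V) (B : V →ₗ[Ω] V →ₗ[Ω] Ω) : Submodule Ω V where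
  carrier := {x | x ∈ G ∧ ∀ y ∈ S, val B x y = 0}
  add_mem' := by
    rintro a b ⟨h1, h2⟩ ⟨h3, h4⟩
    refine ⟨Submodule.add_mem _ h1 h3, fun y hy => ?_⟩
    have e1 : B a y = 0 := h2 y hy
    have e2 : B b y = 0 := h4 y hy
    show B (a + b) y = 0
    rw [map_add, LinearMap.add_apply, e1, e2, add_zero]
  zero_mem' := by
    refine ⟨Submodule.zero_mem _, fun y _ => ?_⟩
    show B 0 y = 0
    rw [map_zero, LinearMap.zero_apply]
  smul_mem' := by
    rintro c a ⟨h1, h2⟩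
    refine ⟨Submodule.smul_mem _ _ h1, fun y hy => ?_⟩
    have e1 : B a y = 0 := h2 y hy
    show B (c • a) y = 0
    rw [map_smul, LinearMap.smul_apply, e1, smul_zero]

/-- The polarization `B` of `G = H^m`: `B(F x, F y) = q ^ m B(x, y)` and
`B(N x, y) + B(x, N y) = 0`. -/
structure IsForm (q m : ℕ) (G : Submodule Ω V) (F N : Module.End Ω V) (B : V →ₗ[Ω] V →ₗ[Ω] Ω) :
    Prop where
  frob : ∀ x ∈ G, ∀ y ∈ G, val B (F x) (F y) = (q : Ω) ^ m * val B x y
  mon : ∀ x ∈ G, ∀ y ∈ G, val B (N x) y + val B x (N y) = 0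

/-- The properties of the set `Sub` of the submotives of a motive with the realization `G` and the
polarization `B`: they are stable under `F` and `N`, sums and orthogonal complements of submotives are
submotives, and the polarization is nondegenerate on each submotive. -/
structure IsSubs (G : Submodule Ω V) (F N : Module.End Ω V) (B : V →ₗ[Ω] V →ₗ[Ω] Ω)
    (Sub : Set (Submodule Ω V)) : Prop where
  le : ∀ S ∈ Sub, S ≤ G
  frob : ∀ S ∈ Sub, ∀ x ∈ S, F x ∈ S
  mon : ∀ S ∈ Sub, ∀ x ∈ S, N x ∈ S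
  top : G ∈ Sub
  sum : ∀ 𝒮 ⊆ Sub, sSup 𝒮 ∈ Sub
  orth : ∀ S ∈ Sub, ortho G S B ∈ Sub
  nondeg : ∀ S ∈ Sub, ∀ x ∈ S, (∀ y ∈ S, val B x y = 0) → x = 0

/-- The product `x y`. -/
def mulv (cup : V →ₗ[Ω] V →ₗ[Ω] V) (x y : V) : V := cup x y

/-- The cup product is graded, `F` is multiplicative and `N` is a derivation, and the span of the
products of the elements of two submotives is a submotive. -/
structure IsCup (gr : ℕ → Submodule Ω V) (F N : Module.End Ω V) (cup : V →ₗ[Ω] V →ₗ[Ω] V)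
    (Sub : ℕ → Set (Submodule Ω V)) : Prop where
  deg : ∀ i j, ∀ x ∈ gr i, ∀ y ∈ gr j, mulv cup x y ∈ gr (i + j)
  frob : ∀ x y, F (mulv cup x y) = mulv cup (F x) (F y)
  mon : ∀ x y, N (mulv cup x y) = mulv cup (N x) y + mulv cup x (N y)
  sub : ∀ i j, ∀ S ∈ Sub i, ∀ S' ∈ Sub j, Submodule.map₂ cup S S' ∈ Sub (i + j)

/-- The properties of the map `φ` given by a correspondence of degree `r`: it maps `H^i` to
`H^(i + 2 r)` and submotives to submotives, `F' φ = q ^ r φ F` and `N' φ = φ N`. -/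
structure IsCorr (q : ℕ) (r : ℤ) (gr : ℕ → Submodule Ω V) (gr' : ℕ → Submodule Ω V')
    (F N : Module.End Ω V) (F' N' : Module.End Ω V') (Sub : ℕ → Set (Submodule Ω V))
    (Sub' : ℕ → Set (Submodule Ω V')) (φ : V →ₗ[Ω] V') : Prop where
  deg : ∀ i j : ℕ, (j : ℤ) = i + 2 * r → ∀ x ∈ gr i, φ x ∈ gr' j
  sub : ∀ i j : ℕ, (j : ℤ) = i + 2 * r → ∀ S ∈ Sub i, S.map φ ∈ Sub' j
  frob : ∀ x, F' (φ x) = (q : Ω) ^ r • φ (F x)
  mon : ∀ x, N' (φ x) = φ (N x)

end

/-- A smooth proper scheme over the field `K`, purely of dimension `dim`. -/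
structure SmProper (K : Type u) [Field K] where
  /-- the underlying scheme -/
  X : Scheme.{u}
  /-- the structure morphism -/
  str : X ⟶ Spec (.of K)
  /-- the dimension -/
  dim : ℕ
  smooth : SmoothOfRelativeDimension dim str
  proper : IsProper str

/-- The data given by the cohomology of a smooth proper scheme `X`: the graded space `⨁ H^m` with
the operators `F` and `N`, the realizations of the submotives of the motives `h^m(X)`, the
polarizations of the `H^m` and the cup product. -/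
structure MCoh (Ω : Type w) [Field Ω] where
  /-- the cohomology, with the operators `F` and `N` -/
  R : Coh.{v, w} Ω
  /-- the subspaces of `H^m` which are realizations of submotives of `h^m(X)` -/
  Sub : ℕ → Set (Submodule Ω R.V)
  /-- the polarization of `H^m` -/
  Q : ℕ → R.V →ₗ[Ω] R.V →ₗ[Ω] Ω
  /-- the cup product -/
  cup : R.V →ₗ[Ω] R.V →ₗ[Ω] R.V

namespace MCoh

variable {Ω : Type w} [Field Ω]

/-- The known properties of the cohomology of `X`, its submotives, polarizations and cup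
product. -/
structure IsMotivic [CharZero Ω] (A : MCoh.{v, w} Ω) (q : ℕ) : Prop where
  coh : A.R.IsCoh q
  form : ∀ m, IsForm q m (A.R.gr m) A.R.F A.R.N (A.Q m)
  sub : ∀ m, IsSubs (A.R.gr m) A.R.F A.R.N (A.Q m) (A.Sub m)
  prod : IsCup A.R.gr A.R.F A.R.N A.cup A.Sub

/-- The pure part of `H^m`: the sum of the submotives which are mw pure of weight `m`. -/
def pure [CharZero Ω] (A : MCoh.{v, w} Ω) (q m : ℕ) : Submodule Ω A.R.V :=
  sSup {S | S ∈ A.Sub m ∧ PureOn A.R q m S}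

/-- The orthogonal complement of `S` in `H^m`. -/
abbrev orth (A : MCoh.{v, w} Ω) (m : ℕ) (S : Submodule Ω A.R.V) : Submodule Ω A.R.V :=
  ortho (A.R.gr m) S (A.Q m)

section

variable [CharZero Ω] {A : MCoh.{v, w} Ω} {q : ℕ}

lemma IsMotivic.sub_le (h : A.IsMotivic q) : ∀ m, ∀ S ∈ A.Sub m, S ≤ A.R.gr m :=
  fun m => (h.sub m).le

lemma IsMotivic.sub_F (h : A.IsMotivic q) : ∀ m, ∀ S ∈ A.Sub m, ∀ x ∈ S, A.R.F x ∈ S :=
  fun m => (h.sub m).frob

lemma IsMotivic.sub_N (h : A.IsMotivic q) : ∀ m, ∀ S ∈ A.Sub m, ∀ x ∈ S, A.R.N x ∈ S :=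
  fun m => (h.sub m).mon

lemma IsMotivic.sub_gr (h : A.IsMotivic q) : ∀ m, A.R.gr m ∈ A.Sub m := fun m => (h.sub m).top

lemma IsMotivic.sub_sSup (h : A.IsMotivic q) : ∀ m, ∀ 𝒮 : Set (Submodule Ω A.R.V),
    𝒮 ⊆ A.Sub m → sSup 𝒮 ∈ A.Sub m := fun m => (h.sub m).sum

lemma IsMotivic.sub_orth (h : A.IsMotivic q) : ∀ m, ∀ S ∈ A.Sub m, A.orth m S ∈ A.Sub m :=
  fun m => (h.sub m).orth

lemma IsMotivic.sub_cup (h : A.IsMotivic q) : ∀ i j, ∀ S ∈ A.Sub i, ∀ S' ∈ A.Sub j,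
    Submodule.map₂ A.cup S S' ∈ A.Sub (i + j) := h.prod.sub

lemma IsMotivic.Q_nondeg (h : A.IsMotivic q) : ∀ m, ∀ S ∈ A.Sub m, ∀ x ∈ S,
    (∀ y ∈ S, A.Q m x y = 0) → x = 0 := fun m => (h.sub m).nondeg

lemma IsMotivic.Q_F (h : A.IsMotivic q) : ∀ m x y, x ∈ A.R.gr m → y ∈ A.R.gr m →
    A.Q m (A.R.F x) (A.R.F y) = (q : Ω) ^ m * A.Q m x y :=
  fun m x y hx hy => (h.form m).frob x hx y hy

lemma IsMotivic.Q_N (h : A.IsMotivic q) : ∀ m x y, x ∈ A.R.gr m → y ∈ A.R.gr m →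
    A.Q m (A.R.N x) y + A.Q m x (A.R.N y) = 0 := fun m x y hx hy => (h.form m).mon x hx y hy

lemma IsMotivic.cup_gr (h : A.IsMotivic q) : ∀ i j x y, x ∈ A.R.gr i → y ∈ A.R.gr j →
    A.cup x y ∈ A.R.gr (i + j) := fun i j x y hx hy => h.prod.deg i j x hx y hy

lemma IsMotivic.cup_F (h : A.IsMotivic q) : ∀ x y, A.R.F (A.cup x y) = A.cup (A.R.F x) (A.R.F y) :=
  h.prod.frob

lemma IsMotivic.cup_N (h : A.IsMotivic q) : ∀ x y, A.R.N (A.cup x y) =
    A.cup (A.R.N x) y + A.cup x (A.R.N y) := h.prod.mon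

end

end MCoh

/-- The data of the cohomology of all smooth proper schemes over `K`, and of the maps
`H^i(Y) → H^(i + 2 r)(X)` given by the correspondences of degree `r` from `Y` to `X`. -/
structure MTheory (K : Type u) [Field K] (Ω : Type w) [Field Ω] where
  /-- the cohomology of `X` -/
  H : SmProper.{u} K → MCoh.{v, w} Ω
  /-- the maps given by the correspondences of degree `r` -/
  corr : ∀ Y X : SmProper.{u} K, ℤ → Set ((H Y).R.V →ₗ[Ω] (H X).R.V)

namespace MTheory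

variable {K : Type u} [Field K] {Ω : Type w} [Field Ω]

/-- The known properties of the cohomology of the smooth proper schemes over a local field `K` with
residue field with `q` elements, and of the correspondences. -/
structure IsMotivic [CharZero Ω] (T : MTheory.{u, v, w} K Ω) (q : ℕ) : Prop where
  coh : ∀ X, (T.H X).IsMotivic q
  corrs : ∀ Y X r, ∀ φ ∈ T.corr Y X r, IsCorr q r (T.H Y).R.gr (T.H X).R.gr (T.H Y).R.F
    (T.H Y).R.N (T.H X).R.F (T.H X).R.N (T.H Y).Sub (T.H X).Sub φ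

section

variable [CharZero Ω] {T : MTheory.{u, v, w} K Ω} {q : ℕ}

lemma IsMotivic.corr_gr (h : T.IsMotivic q) : ∀ (Y X : SmProper.{u} K) (r : ℤ),
    ∀ φ ∈ T.corr Y X r, ∀ i j : ℕ,
    (j : ℤ) = i + 2 * r → ∀ x ∈ (T.H Y).R.gr i, φ x ∈ (T.H X).R.gr j :=
  fun Y X r φ hφ => (h.corrs Y X r φ hφ).deg

lemma IsMotivic.corr_F (h : T.IsMotivic q) : ∀ (Y X : SmProper.{u} K) (r : ℤ),
    ∀ φ ∈ T.corr Y X r, ∀ x, (T.H X).R.F (φ x) = (q : Ω) ^ r • φ ((T.H Y).R.F x) :=
  fun Y X r φ hφ => (h.corrs Y X r φ hφ).frob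

lemma IsMotivic.corr_N (h : T.IsMotivic q) : ∀ (Y X : SmProper.{u} K) (r : ℤ),
    ∀ φ ∈ T.corr Y X r, ∀ x, (T.H X).R.N (φ x) = φ ((T.H Y).R.N x) :=
  fun Y X r φ hφ => (h.corrs Y X r φ hφ).mon

lemma IsMotivic.corr_sub (h : T.IsMotivic q) : ∀ (Y X : SmProper.{u} K) (r : ℤ),
    ∀ φ ∈ T.corr Y X r, ∀ i j : ℕ,
    (j : ℤ) = i + 2 * r → ∀ S ∈ (T.H Y).Sub i, S.map φ ∈ (T.H X).Sub j :=
  fun Y X r φ hφ => (h.corrs Y X r φ hφ).sub

end

/-- The part `N^c H^(i + 2 c)(X)` of coniveau `c`: the sum of the images of the `H^i(Y)` under all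
correspondences of degree `c`, for all smooth proper `Y`. -/
def coniveau (T : MTheory.{u, v, w} K Ω) (X : SmProper.{u} K) (c i : ℕ) :
    Submodule Ω (T.H X).R.V :=
  sSup {S | ∃ Y, ∃ φ ∈ T.corr Y X c, S = ((T.H Y).R.gr i).map φ}

/-- The variety `X` is dominated by `X'` modulo classes of coniveau `c` in degree `i + 2 c`: there
are correspondences `φ` and `ψ` of degree zero such that `ψ φ` is a nonzero multiple of the
identity on `H^(i + 2 c)(X)` modulo `N^c H^(i + 2 c)(X)`. -/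
def Dominated (T : MTheory.{u, v, w} K Ω) (X' X : SmProper.{u} K) (c i : ℕ) : Prop :=
  ∃ φ ∈ T.corr X X' 0, ∃ ψ ∈ T.corr X' X 0, ∃ d : Ω, d ≠ 0 ∧
    ∀ x ∈ (T.H X).R.gr (i + 2 * c), d • x - ψ (φ x) ∈ T.coniveau X c i

end MTheory

end Pool.Agent.H66PP
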