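import Pool.Agent.Y163.MW.Asm

/-!
# Pure subspaces of the cohomology
-/

set_option autoImplicit false

open Module TensorProduct

universe u v w

namespace Pool.Agent.H66PP

open Pool.Agent.Y143 Pool.Agent.Y163.MW Pool.Agent.Y163.MW.Coh Pool.Agent.Y136.UB Pool.Agent.H914

/-- The subspace `S` of `H^m` is mw pure of weight `m`: for all `s` the eigenvalues of `F` on the
graded piece `M_s / M_(s - 1)` of the monodromy filtration `M` of `S` are `q`-Weil numbers of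
weight `m + s`. -/
def PureOn {Ω : Type w} [Field Ω] [CharZero Ω] (R : Coh.{v, w} Ω) (q m : ℕ)
    (S : Submodule Ω R.V) : Prop :=
  ∃ M : ℤ → Submodule Ω R.V, IsMonodromyFiltrationOn S R.N M ∧
    ∀ (s : ℤ) (α : Ω) (x : R.V), x ∈ M s → x ∉ M (s - 1) → R.F x - α • x ∈ M (s - 1) →
      IsWeilNumber q (m + s) α

section lin

variable {Ω : Type w} [Field Ω] {V : Type v} [AddCommGroup V] [Module Ω V]

lemma comp_mem {W U : ℤ → Submodule Ω V} (hW : iSupIndep W) (hU : ∀ c, U c ≤ W c) {c : ℤ} {y : V}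
    (hy : y ∈ W c) (hy2 : y ∈ ⨆ c, U c) : y ∈ U c := by
  rw [iSup_split_single U c] at hy2
  obtain ⟨u, hu, v, hv, rfl⟩ := Submodule.mem_sup.1 hy2
  have hv1 : v ∈ W c := by
    have := (W c).sub_mem hy (hU c hu)
    rwa [add_sub_cancel_left] at this
  have hv2 : v ∈ ⨆ (j : ℤ) (_ : j ≠ c), W j := by
    refine (iSup₂_mono fun j _ => hU j) hv
  have hv0 : v = 0 := Submodule.disjoint_def.1 (hW c) v hv1 hv2
  rw [hv0, add_zero]
  exact hu

end lin

variable {Ω : Type w} [Field Ω] [CharZero Ω] {R : Coh.{v, w} Ω} {q : ℕ}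

/-- `N ^ a` maps the part of excess `a` of `S` onto the part of excess `-a`. -/
def SC (R : Coh.{v, w} Ω) (q m : ℕ) (S : Submodule Ω R.V) : Prop :=
  ∀ (a : ℕ) (y : R.V), y ∈ S → y ∈ R.exc q m (-(a : ℤ)) →
    ∃ x ∈ S, x ∈ R.exc q m a ∧ (R.N ^ a) x = y

lemma homog [IsAlgClosed Ω] (hR : R.IsCoh q) {m : ℕ} {S : Submodule Ω R.V} (hS : S ≤ R.gr m)
    (hF : ∀ x ∈ S, R.F x ∈ S) : ⨆ c, S ⊓ R.exc q m c = S := by
  have := hR.finite
  apply le_antisymm (iSup_le fun c => inf_le_left)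
  have h1 : S = ⨆ α, S ⊓ R.F.maxGenEigenspace α :=
    Submodule.eq_iSup_inf_genEigenspace ⊤ hF (Module.End.iSup_maxGenEigenspace_eq_top R.F)
  conv_lhs => rw [h1]
  refine iSup_le fun α => ?_
  intro x hx
  obtain ⟨hx1, hx2⟩ := Submodule.mem_inf.1 hx
  by_cases h0 : x = 0
  · rw [h0]
    exact Submodule.zero_mem _
  have hxp : x ∈ R.pc (m, α) := Submodule.mem_inf.2 ⟨hS hx1, hx2⟩
  obtain ⟨w, hw⟩ := exists_weil hR hxp h0
  refine Submodule.mem_iSup_of_mem (w - m) (Submodule.mem_inf.2 ⟨hx1, ?_⟩)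
  refine Submodule.mem_iSup_of_mem α (Submodule.mem_iSup_of_mem ?_ hxp)
  rwa [show (m : ℤ) + (w - m) = w by ring]

lemma pureOn_iff [IsAlgClosed Ω] (hq : 1 < q) (hR : R.IsCoh q) {m : ℕ} {S : Submodule Ω R.V}
    (hS : S ≤ R.gr m) (hF : ∀ x ∈ S, R.F x ∈ S) (hN : ∀ x ∈ S, R.N x ∈ S) :
    PureOn R q m S ↔ Centred (fun c => S ⊓ R.exc q m c) R.N := by
  have := hR.finite
  exact Pool.Agent.Y48.MW.t_G Ω R.V S (fun c => S ⊓ R.exc q m c) R.F R.N (q : Ω)
    (fun c α => IsWeilNumber q (m + c) α) (homog hR hS hF)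
    ((indep_exc_deg hq hR m).mono fun c => inf_le_right)
    (fun c x hx => Submodule.mem_inf.2 ⟨hF x (Submodule.mem_inf.1 hx).1,
      F_exc hR m c x (Submodule.mem_inf.1 hx).2⟩)
    (fun c x hx => Submodule.mem_inf.2 ⟨hN x (Submodule.mem_inf.1 hx).1,
      N_exc hq hR m c x (Submodule.mem_inf.1 hx).2⟩)
    (Nat.cast_ne_zero.2 (by omega)) (fun x _ => hR.N_F x)
    (fun c α x hx h0 hFx => eigen_exc hq hR (Submodule.mem_inf.1 hx).2 h0 hFx)
    (fun c c' α h h' => by have := weil_unique hq h h'; omega)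

/-- a pure subspace has the surjectivity property -/
lemma PureOn.sc [IsAlgClosed Ω] (hq : 1 < q) (hR : R.IsCoh q) {m : ℕ} {S : Submodule Ω R.V}
    (hS : S ≤ R.gr m) (hF : ∀ x ∈ S, R.F x ∈ S) (hN : ∀ x ∈ S, R.N x ∈ S)
    (h : PureOn R q m S) : SC R q m S := by
  intro a y hy hy2
  obtain ⟨x, hx, hxy⟩ := ((pureOn_iff hq hR hS hF hN).1 h a).2 y (Submodule.mem_inf.2 ⟨hy, hy2⟩)
  exact ⟨x, (Submodule.mem_inf.1 hx).1, (Submodule.mem_inf.1 hx).2, hxy⟩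

/-- weights are orthogonal -/
lemma exc_orth (hq : 1 < q) {m : ℕ} {B : R.V →ₗ[Ω] R.V →ₗ[Ω] Ω}
    (hR : R.IsCoh q) (hB : ∀ x y, x ∈ R.gr m → y ∈ R.gr m → B (R.F x) (R.F y) = (q : Ω) ^ m * B x y)
    {a c : ℤ} (hac : a + c ≠ 0) {x y : R.V} (hx : x ∈ R.exc q m a) (hy : y ∈ R.exc q m c) :
    B x y = 0 := by
  have h1 : R.exc q m a ≤ LinearMap.ker (B.flip y) := by
    refine iSup₂_le fun α hα => ?_
    intro x hx
    rw [LinearMap.mem_ker, LinearMap.flip_apply]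
    have h2 : R.exc q m c ≤ LinearMap.ker (B x) := by
      refine iSup₂_le fun β hβ => ?_
      intro y hy
      rw [LinearMap.mem_ker]
      obtain ⟨hx1, hx2⟩ := Submodule.mem_inf.1 hx
      obtain ⟨hy1, hy2⟩ := Submodule.mem_inf.1 hy
      refine gen_orth (hR.F_gr m) hB ?_ hx1 hy1 hx2 hy2
      intro hcon
      have h3 := weil_mul (by omega : 0 < q) hα hβ
      rw [hcon] at h3
      have h4 := weil_unique hq h3 (weil_natPow (by omega : 0 < q) m)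
      omega
    exact h2 hy
  exact h1 hx

lemma pow_skew {B : R.V →ₗ[Ω] R.V →ₗ[Ω] Ω} {S : Submodule Ω R.V} (hN : ∀ x ∈ S, R.N x ∈ S)
    (hB : ∀ x y, x ∈ S → y ∈ S → B (R.N x) y + B x (R.N y) = 0) (a : ℕ) :
    ∀ x y, x ∈ S → y ∈ S → B x ((R.N ^ a) y) = (-1) ^ a * B ((R.N ^ a) x) y := by
  induction a with
  | zero => intro x y _ _; simp
  | succ a ih =>
    intro x y hx hy
    have hNa : ∀ z ∈ S, (R.N ^ a) z ∈ S := by
      intro z hz
      clear ih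
      induction a with
      | zero => simpa using hz
      | succ a ih2 =>
        rw [pow_succ', Module.End.mul_apply]
        exact hN _ ih2
    have e1 : (R.N ^ (a + 1)) y = R.N ((R.N ^ a) y) := by rw [pow_succ', Module.End.mul_apply]
    have e2 : (R.N ^ (a + 1)) x = (R.N ^ a) (R.N x) := by rw [pow_succ, Module.End.mul_apply]
    rw [e1, e2]
    have h1 := hB x _ hx (hNa y hy)
    have h2 := ih (R.N x) y (hN x hx) hy
    have h3 : B x (R.N ((R.N ^ a) y)) = - B (R.N x) ((R.N ^ a) y) := by linear_combination h1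
    rw [h3, h2, pow_succ]
    ring

/-- on a subspace with a nondegenerate form surjectivity gives purity -/
lemma pure_of_sc [IsAlgClosed Ω] (hq : 1 < q) (hR : R.IsCoh q) {m : ℕ} {S : Submodule Ω R.V}
    (hS : S ≤ R.gr m) (hF : ∀ x ∈ S, R.F x ∈ S) (hN : ∀ x ∈ S, R.N x ∈ S)
    {B : R.V →ₗ[Ω] R.V →ₗ[Ω] Ω}
    (hBF : ∀ x y, x ∈ R.gr m → y ∈ R.gr m → B (R.F x) (R.F y) = (q : Ω) ^ m * B x y)
    (hBN : ∀ x y, x ∈ R.gr m → y ∈ R.gr m → B (R.N x) y + B x (R.N y) = 0)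
    (hnd : ∀ x ∈ S, (∀ y ∈ S, B x y = 0) → x = 0) (h : SC R q m S) : PureOn R q m S := by
  rw [pureOn_iff hq hR hS hF hN]
  intro a
  refine ⟨?_, ?_⟩
  · intro x hx hx0
    obtain ⟨hx1, hx2⟩ := Submodule.mem_inf.1 hx
    apply hnd x hx1
    have h1 : S ≤ LinearMap.ker (B x) := by
      conv_lhs => rw [← homog hR hS hF]
      refine iSup_le fun c => ?_
      intro y hy
      obtain ⟨hy1, hy2⟩ := Submodule.mem_inf.1 hy
      rw [LinearMap.mem_ker]
      by_cases hc : (a : ℤ) + c = 0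
      · have hc' : c = -(a : ℤ) := by omega
        rw [hc'] at hy2
        obtain ⟨z, hz1, _, hz3⟩ := h a y hy1 hy2
        rw [← hz3, pow_skew hN (fun x y hx hy => hBN x y (hS hx) (hS hy)) a x z hx1 hz1, hx0,
          map_zero, LinearMap.zero_apply, mul_zero]
      · exact exc_orth hq hR hBF hc hx2 hy2
    intro y hy
    exact LinearMap.mem_ker.1 (h1 hy)
  · intro y hy
    obtain ⟨hy1, hy2⟩ := Submodule.mem_inf.1 hy
    obtain ⟨x, hx1, hx2, hx3⟩ := h a y hy1 hy2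
    exact ⟨x, Submodule.mem_inf.2 ⟨hx1, hx2⟩, hx3⟩

/-- sums of subspaces with the surjectivity property -/
lemma sc_sSup [IsAlgClosed Ω] (hq : 1 < q) (hR : R.IsCoh q) {m : ℕ} {𝒮 : Set (Submodule Ω R.V)}
    (hS : ∀ S ∈ 𝒮, S ≤ R.gr m) (hF : ∀ S ∈ 𝒮, ∀ x ∈ S, R.F x ∈ S) (h : ∀ S ∈ 𝒮, SC R q m S) :
    SC R q m (sSup 𝒮) := by
  intro a y hy hy2
  have h1 : y ∈ ⨆ S : 𝒮, (S : Submodule Ω R.V) ⊓ R.exc q m (-(a : ℤ)) := by
    refine comp_mem (W := fun c => R.exc q m c)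
      (U := fun c => ⨆ S : 𝒮, (S : Submodule Ω R.V) ⊓ R.exc q m c)
      (indep_exc_deg hq hR m) (fun c => iSup_le fun S => inf_le_right) (c := -(a : ℤ)) hy2 ?_
    rw [sSup_eq_iSup'] at hy
    have h2 : (⨆ S : 𝒮, (S : Submodule Ω R.V)) ≤
        ⨆ c, ⨆ S : 𝒮, (S : Submodule Ω R.V) ⊓ R.exc q m c := by
      refine iSup_le fun S => ?_
      conv_lhs => rw [← homog hR (hS S S.2) (hF S S.2)]
      refine iSup_le fun c => ?_
      refine le_iSup_of_le c ?_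
      exact le_iSup (fun S : 𝒮 => (S : Submodule Ω R.V) ⊓ R.exc q m c) S
    exact h2 hy
  clear hy hy2
  induction h1 using Submodule.iSup_induction' with
  | mem S z hz =>
    obtain ⟨hz1, hz2⟩ := Submodule.mem_inf.1 hz
    obtain ⟨x, hx1, hx2, hx3⟩ := h S S.2 a z hz1 hz2
    exact ⟨x, Submodule.mem_sSup_of_mem S.2 hx1, hx2, hx3⟩
  | zero => exact ⟨0, Submodule.zero_mem _, Submodule.zero_mem _, map_zero _⟩
  | add y1 y2 _ _ ih1 ih2 =>
    obtain ⟨x1, hx1, hx2, hx3⟩ := ih1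
    obtain ⟨z1, hz1, hz2, hz3⟩ := ih2
    exact ⟨x1 + z1, Submodule.add_mem _ hx1 hz1, Submodule.add_mem _ hx2 hz2, by
      rw [map_add, hx3, hz3]⟩

end Pool.Agent.H66PP
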