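import Pool.Agent.H66PP.Ops
import Pool.Agent.H66PP.Defs

/-!
# The pure part of the cohomology
-/

set_option autoImplicit false
set_option linter.unusedSectionVars false

open Module

universe u v w

namespace Pool.Agent.H66PP

open Pool.Agent.Y143 Pool.Agent.Y163.MW Pool.Agent.Y163.MW.Coh

variable {K : Type u} [Field K] {Ω : Type w} [Field Ω] [CharZero Ω] [IsAlgClosed Ω]

section one

variable {A : MCoh.{v, w} Ω} {q : ℕ}

lemma pure_sub (hA : A.IsMotivic q) (m : ℕ) : A.pure q m ∈ A.Sub m :=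
  hA.sub_sSup m _ fun _ hS => hS.1

/-- on submotives the surjectivity property is the same as purity -/
lemma pureOn_of_sc (hq : 1 < q) (hA : A.IsMotivic q) {m : ℕ} {S : Submodule Ω A.R.V}
    (hS : S ∈ A.Sub m) (h : SC A.R q m S) : PureOn A.R q m S :=
  pure_of_sc hq hA.coh (hA.sub_le m S hS) (hA.sub_F m S hS) (hA.sub_N m S hS)
    (B := A.Q m) (hA.Q_F m) (hA.Q_N m) (hA.Q_nondeg m S hS) h

lemma sc_of_pureOn (hq : 1 < q) (hA : A.IsMotivic q) {m : ℕ} {S : Submodule Ω A.R.V}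
    (hS : S ∈ A.Sub m) (h : PureOn A.R q m S) : SC A.R q m S :=
  h.sc hq hA.coh (hA.sub_le m S hS) (hA.sub_F m S hS) (hA.sub_N m S hS)

lemma pure_sc (hq : 1 < q) (hA : A.IsMotivic q) (m : ℕ) : SC A.R q m (A.pure q m) :=
  sc_sSup hq hA.coh (fun S hS => hA.sub_le m S hS.1) (fun S hS => hA.sub_F m S hS.1)
    (fun _ hS => sc_of_pureOn hq hA hS.1 hS.2)

lemma pure_pureOn (hq : 1 < q) (hA : A.IsMotivic q) (m : ℕ) : PureOn A.R q m (A.pure q m) :=
  pureOn_of_sc hq hA (pure_sub hA m) (pure_sc hq hA m)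

lemma le_pure {m : ℕ} {S : Submodule Ω A.R.V} (hS : S ∈ A.Sub m) (h : PureOn A.R q m S) :
    S ≤ A.pure q m := le_sSup ⟨hS, h⟩

lemma mem_orth {m : ℕ} {S : Submodule Ω A.R.V} {x : A.R.V} :
    x ∈ A.orth m S ↔ x ∈ A.R.gr m ∧ ∀ y ∈ S, A.Q m x y = 0 := Iff.rfl

lemma inf_orth (hA : A.IsMotivic q) {m : ℕ} {S : Submodule Ω A.R.V} (hS : S ∈ A.Sub m) :
    S ⊓ A.orth m S = ⊥ := by
  rw [eq_bot_iff]
  intro x hx
  obtain ⟨h1, h2⟩ := Submodule.mem_inf.1 hx
  exact (Submodule.mem_bot Ω).2 (hA.Q_nondeg m S hS x h1 h2.2)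

lemma sup_orth (hA : A.IsMotivic q) {m : ℕ} {S : Submodule Ω A.R.V} (hS : S ∈ A.Sub m) :
    S ⊔ A.orth m S = A.R.gr m := by
  have := hA.coh.finite
  apply le_antisymm (sup_le (hA.sub_le m S hS) fun x hx => (mem_orth.1 hx).1)
  intro x hx
  obtain ⟨g, hg⟩ : ∃ g : S →ₗ[Ω] (S →ₗ[Ω] Ω), g = ((A.Q m).comp S.subtype).compl₂ S.subtype :=
    ⟨_, rfl⟩
  have hgv : ∀ s t : S, g s t = A.Q m s t := by
    intro s t
    rw [hg]
    rfl
  have hinj : Function.Injective g := by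
    rw [← LinearMap.ker_eq_bot, LinearMap.ker_eq_bot']
    intro s hs
    apply Subtype.ext
    apply hA.Q_nondeg m S hS s s.2
    intro y hy
    have := LinearMap.congr_fun hs (⟨y, hy⟩ : S)
    rwa [hgv] at this
  have hsurj : Function.Surjective g :=
    (LinearMap.injective_iff_surjective_of_finrank_eq_finrank
      (Subspace.dual_finrank_eq (K := Ω) (V := S)).symm).1 hinj
  obtain ⟨s, hs⟩ := hsurj ((A.Q m x).comp S.subtype)
  rw [Submodule.mem_sup]
  refine ⟨s, s.2, x - s, ?_, by abel⟩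
  refine mem_orth.2 ⟨Submodule.sub_mem _ hx (hA.sub_le m S hS s.2), ?_⟩
  intro y hy
  have h1 := LinearMap.congr_fun hs (⟨y, hy⟩ : S)
  rw [hgv] at h1
  rw [map_sub, LinearMap.sub_apply, h1]
  exact sub_self _

lemma decomp (hq : 1 < q) (hA : A.IsMotivic q) {m : ℕ} {S : Submodule Ω A.R.V} (hS : S ∈ A.Sub m)
    {a : ℤ} {x : A.R.V} (hx : x ∈ A.R.exc q m a) :
    ∃ s t, s ∈ S ∧ s ∈ A.R.exc q m a ∧ t ∈ A.orth m S ∧ s + t = x := by
  have hO := hA.sub_orth m S hS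
  have h1 : x ∈ (S ⊓ A.R.exc q m a) ⊔ (A.orth m S ⊓ A.R.exc q m a) := by
    refine comp_mem (U := fun c => (S ⊓ A.R.exc q m c) ⊔ (A.orth m S ⊓ A.R.exc q m c))
      (indep_exc_deg hq hA.coh m) (fun c => sup_le inf_le_right inf_le_right) hx ?_
    have h2 : x ∈ S ⊔ A.orth m S := by
      rw [sup_orth hA hS]
      exact exc_le m a hx
    have h3 : S ⊔ A.orth m S ≤
        ⨆ c, (S ⊓ A.R.exc q m c) ⊔ (A.orth m S ⊓ A.R.exc q m c) := by
      rw [iSup_sup_eq, homog hA.coh (hA.sub_le m S hS) (hA.sub_F m S hS),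
        homog hA.coh (hA.sub_le m _ hO) (hA.sub_F m _ hO)]
    exact h3 h2
  obtain ⟨s, hs, t, ht, rfl⟩ := Submodule.mem_sup.1 h1
  exact ⟨s, t, (Submodule.mem_inf.1 hs).1, (Submodule.mem_inf.1 hs).2,
    (Submodule.mem_inf.1 ht).1, rfl⟩

lemma pow_stable {S : Submodule Ω A.R.V} (hN : ∀ x ∈ S, A.R.N x ∈ S) (a : ℕ) :
    ∀ z ∈ S, (A.R.N ^ a) z ∈ S := by
  induction a with
  | zero => intro z hz; simpa using hz
  | succ a ih =>
    intro z hz
    rw [pow_succ', Module.End.mul_apply]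
    exact hN _ (ih z hz)

/-- a submotive of a pure submotive is pure -/
lemma pureOn_mono (hq : 1 < q) (hA : A.IsMotivic q) {m : ℕ} {S S' : Submodule Ω A.R.V}
    (hS : S ∈ A.Sub m) (hS' : S' ∈ A.Sub m) (hle : S ≤ S') (h : PureOn A.R q m S') :
    PureOn A.R q m S := by
  apply pureOn_of_sc hq hA hS
  intro a y hy hy2
  obtain ⟨x, _, hx2, hx3⟩ := sc_of_pureOn hq hA hS' h a y (hle hy) hy2
  obtain ⟨s, t, hs, hs2, ht, rfl⟩ := decomp hq hA hS hx2
  refine ⟨s, hs, hs2, ?_⟩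
  rw [map_add] at hx3
  have h1 : (A.R.N ^ a) t = y - (A.R.N ^ a) s := by rw [← hx3]; abel
  have h2 : (A.R.N ^ a) t ∈ S := by
    rw [h1]
    exact Submodule.sub_mem _ hy (pow_stable (hA.sub_N m S hS) a s hs)
  have h3 : (A.R.N ^ a) t ∈ A.orth m S :=
    pow_stable (hA.sub_N m _ (hA.sub_orth m S hS)) a t ht
  have h4 : (A.R.N ^ a) t ∈ S ⊓ A.orth m S := Submodule.mem_inf.2 ⟨h2, h3⟩
  rw [inf_orth hA hS, Submodule.mem_bot] at h4
  rw [h4, add_zero] at hx3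
  exact hx3

/-- a submotive is pure if and only if it is contained in the pure part -/
lemma pureOn_iff_le (hq : 1 < q) (hA : A.IsMotivic q) {m : ℕ} {S : Submodule Ω A.R.V}
    (hS : S ∈ A.Sub m) : PureOn A.R q m S ↔ S ≤ A.pure q m :=
  ⟨fun h => le_pure hS h, fun h => pureOn_mono hq hA hS (pure_sub hA m) h (pure_pureOn hq hA m)⟩

lemma mwPure_iff_pure (hq : 1 < q) (hA : A.IsMotivic q) (m : ℕ) :
    A.R.MWPure q m ↔ A.pure q m = A.R.gr m := by
  have h := pureOn_iff_le hq hA (hA.sub_gr m)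
  constructor
  · intro h1
    exact le_antisymm (hA.sub_le m _ (pure_sub hA m)) (h.1 h1)
  · intro h1
    exact h.2 (by rw [h1])

/-- the conjecture for `H^m` is the conjecture for the quotient by a pure submotive -/
lemma mwPure_iff_orth (hq : 1 < q) (hA : A.IsMotivic q) {m : ℕ} {S : Submodule Ω A.R.V}
    (hS : S ∈ A.Sub m) (h : PureOn A.R q m S) :
    A.R.MWPure q m ↔ PureOn A.R q m (A.orth m S) := by
  constructor
  · intro h1
    exact pureOn_mono hq hA (hA.sub_orth m S hS) (hA.sub_gr m)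
      (fun x hx => (mem_orth.1 hx).1) h1
  · intro h1
    rw [mwPure_iff_pure hq hA]
    apply le_antisymm (hA.sub_le m _ (pure_sub hA m))
    rw [← sup_orth hA hS]
    exact sup_le (le_pure hS h) (le_pure (hA.sub_orth m S hS) h1)

/-- the pure part is stable under cup products -/
lemma pure_cup (hq : 1 < q) (hA : A.IsMotivic q) (i j : ℕ) :
    Submodule.map₂ A.cup (A.pure q i) (A.pure q j) ≤ A.pure q (i + j) := by
  have hi := pure_sub hA i
  have hj := pure_sub hA j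
  apply le_pure (hA.sub_cup i j _ hi _ hj)
  apply pureOn_of_sc hq hA (hA.sub_cup i j _ hi _ hj)
  exact sc_cup hq hA.coh hA.cup_gr hA.cup_F hA.cup_N (hA.sub_le i _ hi) (hA.sub_F i _ hi)
    (hA.sub_N i _ hi) (hA.sub_le j _ hj) (hA.sub_F j _ hj) (hA.sub_N j _ hj)
    (pure_pureOn hq hA i) (pure_pureOn hq hA j)

end one

variable {T : MTheory.{u, v, w} K Ω} {q : ℕ}

/-- the pure part is stable under correspondences -/
lemma pure_corr (hq : 1 < q) (hT : T.IsMotivic q) {Y X : SmProper.{u} K} {r : ℤ}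
    {φ : (T.H Y).R.V →ₗ[Ω] (T.H X).R.V} (hφ : φ ∈ T.corr Y X r) {i j : ℕ}
    (hij : (j : ℤ) = i + 2 * r) : ((T.H Y).pure q i).map φ ≤ (T.H X).pure q j := by
  have hY := hT.coh Y
  have hX := hT.coh X
  have hi := pure_sub hY i
  have hS := hT.corr_sub Y X r φ hφ i j hij _ hi
  apply le_pure hS
  apply pureOn_of_sc hq hX hS
  exact sc_map hq hY.coh hX.coh hij (hT.corr_gr Y X r φ hφ i j hij) (hT.corr_F Y X r φ hφ)
    (hT.corr_N Y X r φ hφ) (hY.sub_le i _ hi) (hY.sub_F i _ hi) (pure_sc hq hY i)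

lemma coniveau_sub (hT : T.IsMotivic q) (X : SmProper.{u} K) (c i : ℕ) :
    T.coniveau X c i ∈ (T.H X).Sub (i + 2 * c) := by
  apply (hT.coh X).sub_sSup
  rintro _ ⟨Y, φ, hφ, rfl⟩
  exact hT.corr_sub Y X c φ hφ i _ (by push_cast; ring) _ ((hT.coh Y).sub_gr i)

/-- the part of coniveau `c` of `H^(i + 2 c)` is pure if the conjecture is true in degree `i` -/
lemma coniveau_le (hq : 1 < q) (hT : T.IsMotivic q) (X : SmProper.{u} K) (c i : ℕ)
    (h : ∀ Y, (T.H Y).R.MWPure q i) : T.coniveau X c i ≤ (T.H X).pure q (i + 2 * c) := by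
  apply sSup_le
  rintro _ ⟨Y, φ, hφ, rfl⟩
  have h1 := (mwPure_iff_pure hq (hT.coh Y) i).1 (h Y)
  rw [← h1]
  exact pure_corr hq hT hφ (by push_cast; ring)

lemma mwPure_of_dominated (hq : 1 < q) (hT : T.IsMotivic q) {X' X : SmProper.{u} K} {c i : ℕ}
    (h : ∀ Y, (T.H Y).R.MWPure q i) (hd : T.Dominated X' X c i)
    (h' : (T.H X').R.MWPure q (i + 2 * c)) : (T.H X).R.MWPure q (i + 2 * c) := by
  obtain ⟨φ, hφ, ψ, hψ, d, hd0, hd⟩ := hd
  rw [mwPure_iff_pure hq (hT.coh X)]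
  apply le_antisymm ((hT.coh X).sub_le _ _ (pure_sub (hT.coh X) _))
  intro x hx
  have h1 : φ x ∈ (T.H X').R.gr (i + 2 * c) := hT.corr_gr X X' 0 φ hφ _ _ (by ring) x hx
  rw [← (mwPure_iff_pure hq (hT.coh X') _).1 h'] at h1
  have h2 : ψ (φ x) ∈ (T.H X).pure q (i + 2 * c) :=
    pure_corr hq hT hψ (by ring) (Submodule.mem_map_of_mem h1)
  have h3 := coniveau_le hq hT X c i h (hd x hx)
  have h4 : d • x ∈ (T.H X).pure q (i + 2 * c) := by
    have := Submodule.add_mem _ h3 h2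
    rwa [sub_add_cancel] at this
  have h5 := Submodule.smul_mem _ d⁻¹ h4
  rwa [smul_smul, inv_mul_cancel₀ hd0, one_smul] at h5

end Pool.Agent.H66PP
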