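import Pool.Agent.H66PP.Lin

/-!
# Images and products of pure subspaces
-/

set_option autoImplicit false

open Module TensorProduct

universe u v w

namespace Pool.Agent.H66PP

open Pool.Agent.Y143 Pool.Agent.Y163.MW Pool.Agent.Y163.MW.Coh Pool.Agent.Y136.UB Pool.Agent.H914

section lin

variable {Ω : Type w} [Field Ω] {V : Type v} [AddCommGroup V] [Module Ω V]

lemma gen_smul {F : Module.End Ω V} (t : Ω) {α : Ω} {y : V} (hy : y ∈ F.maxGenEigenspace α) :
    y ∈ (t • F).maxGenEigenspace (t * α) := by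
  obtain ⟨k, hk⟩ := mem_gen.1 hy
  refine mem_gen.2 ⟨k, ?_⟩
  have e : t • F - algebraMap Ω (Module.End Ω V) (t * α) =
      t • (F - algebraMap Ω (Module.End Ω V) α) := by
    ext z
    simp only [LinearMap.sub_apply, LinearMap.smul_apply, Module.algebraMap_end_apply,
      smul_sub, smul_smul]
  rw [e, smul_pow, LinearMap.smul_apply, hk, smul_zero]

lemma pow_comm_map {V' : Type v} [AddCommGroup V'] [Module Ω V'] {N : Module.End Ω V}
    {N' : Module.End Ω V'} (φ : V →ₗ[Ω] V') (h : ∀ x, φ (N x) = N' (φ x)) (a : ℕ) :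
    ∀ x, φ ((N ^ a) x) = (N' ^ a) (φ x) := by
  induction a with
  | zero => intro x; simp
  | succ a ih =>
    intro x
    rw [pow_succ', Module.End.mul_apply, h, ih, ← Module.End.mul_apply, ← pow_succ']

/-- the image of a representation of `sl(2)` has the surjectivity property -/
lemma sl2_image [CharZero Ω] {T : Type v} [AddCommGroup T] [Module Ω T] {NT : Module.End Ω T}
    {κ : Type} [Fintype κ] {b : Basis κ Ω T} {a : κ → ℤ} {e h : Module.End Ω T}
    (hs : IsSl2 NT b a e h) (φ : T →ₗ[Ω] V) {N : Module.End Ω V}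
    (hφ : ∀ t, φ (NT t) = N (φ t)) {W : ℤ → Submodule Ω V} (hW : iSupIndep W)
    (hb : ∀ k, φ (b k) ∈ W (a k)) (m : ℕ) {y : V} (hy : y ∈ LinearMap.range φ)
    (hy2 : y ∈ W (-(m : ℤ))) : ∃ x ∈ LinearMap.range φ, x ∈ W m ∧ (N ^ m) x = y := by
  have h1 : y ∈ (Submodule.span Ω (b '' {k | a k = -(m : ℤ)})).map φ := by
    refine comp_mem (U := fun c => (Submodule.span Ω (b '' {k | a k = c})).map φ) hW ?_
      (c := -(m : ℤ)) hy2 ?_
    · intro c
      rw [Submodule.map_le_iff_le_comap, Submodule.span_le]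
      rintro _ ⟨k, hk, rfl⟩
      have hk' : a k = c := hk
      rw [← hk']
      exact hb k
    · obtain ⟨t, rfl⟩ := hy
      have h2 : (⊤ : Submodule Ω T) ≤
          (⨆ c, (Submodule.span Ω (b '' {k | a k = c})).map φ).comap φ := by
        rw [← b.span_eq, Submodule.span_le]
        rintro _ ⟨k, rfl⟩
        refine Submodule.mem_iSup_of_mem (a k) ?_
        exact Submodule.mem_map_of_mem (Submodule.subset_span ⟨k, rfl, rfl⟩)
      exact h2 (Submodule.mem_top)
  obtain ⟨t, ht, rfl⟩ := h1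
  have h2 : h t = (-(m : Ω)) • t := by
    have h3 : Submodule.span Ω (b '' {k | a k = -(m : ℤ)}) ≤
        LinearMap.ker (h - (-(m : Ω)) • (1 : Module.End Ω T)) := by
      rw [Submodule.span_le]
      rintro _ ⟨k, hk, rfl⟩
      have hk' : a k = -(m : ℤ) := hk
      rw [SetLike.mem_coe, LinearMap.mem_ker, LinearMap.sub_apply, hs.wt k, hk',
        LinearMap.smul_apply, Module.End.one_apply]
      push_cast
      rw [sub_self]
    have h4 := LinearMap.mem_ker.1 (h3 ht)
    rw [LinearMap.sub_apply, LinearMap.smul_apply, Module.End.one_apply, sub_eq_zero] at h4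
    exact h4
  obtain ⟨t', ht', htt⟩ := (Pool.Agent.Y141.MW.stL Ω T NT κ b a e h hs m).2 t h2
  refine ⟨φ t', ⟨t', rfl⟩, ?_, ?_⟩
  · have h5 : ∀ k, (b.repr t' k) ≠ 0 → a k = m := by
      intro k hk
      have h6 : b.repr (h t') k = (a k : Ω) * b.repr t' k := by
        have h7 : (b.coord k) ∘ₗ h = (a k : Ω) • b.coord k := by
          apply b.ext
          intro j
          rw [LinearMap.comp_apply, hs.wt j, map_smul, LinearMap.smul_apply, Basis.coord_apply,
            Basis.repr_self]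
          by_cases hjk : j = k
          · rw [hjk]
          · rw [Finsupp.single_eq_of_ne (Ne.symm hjk), smul_zero, smul_zero]
        have h8 := LinearMap.congr_fun h7 t'
        simpa [Basis.coord_apply] using h8
      rw [ht', map_smul, Finsupp.smul_apply, smul_eq_mul] at h6
      have h7 := mul_right_cancel₀ hk h6
      exact_mod_cast h7.symm
    rw [← b.sum_repr t', map_sum]
    refine Submodule.sum_mem _ fun k _ => ?_
    rw [map_smul]
    by_cases hk : b.repr t' k = 0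
    · rw [hk, zero_smul]
      exact Submodule.zero_mem _
    · refine Submodule.smul_mem _ _ ?_
      have := hb k
      rwa [h5 k hk] at this
  · rw [← pow_comm_map φ hφ, htt]

end lin

variable {Ω : Type w} [Field Ω] [CharZero Ω] {R R' : Coh.{v, w} Ω} {q : ℕ}

/-- a correspondence respects the excess -/
lemma map_exc (hq : 1 < q) {φ : R.V →ₗ[Ω] R'.V} {r : ℤ} {i j : ℕ} (hij : (j : ℤ) = i + 2 * r)
    (hgr : ∀ x ∈ R.gr i, φ x ∈ R'.gr j) (hF : ∀ x, R'.F (φ x) = (q : Ω) ^ r • φ (R.F x)) {c : ℤ} {x : R.V}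
    (hx : x ∈ R.exc q i c) : φ x ∈ R'.exc q j c := by
  have h : R.exc q i c ≤ (R'.exc q j c).comap φ := by
    refine iSup₂_le fun α hα => ?_
    intro y hy
    have h3 := hα.twist (by omega : q ≠ 0) r
    rw [show (i : ℤ) + c + 2 * r = j + c by rw [hij]; ring] at h3
    obtain ⟨h1, h2⟩ := Submodule.mem_inf.1 hy
    refine Submodule.mem_iSup_of_mem _ (Submodule.mem_iSup_of_mem h3 ?_)
    refine Submodule.mem_inf.2 ⟨hgr y h1, ?_⟩
    refine gen_map φ (fun z => ?_) (gen_smul ((q : Ω) ^ r) h2)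
    rw [LinearMap.smul_apply, map_smul, hF]
  exact h hx

lemma sc_map [IsAlgClosed Ω] (hq : 1 < q) (hR : R.IsCoh q) (hR' : R'.IsCoh q)
    {φ : R.V →ₗ[Ω] R'.V} {r : ℤ} {i j : ℕ} (hij : (j : ℤ) = i + 2 * r)
    (hgr : ∀ x ∈ R.gr i, φ x ∈ R'.gr j) (hF : ∀ x, R'.F (φ x) = (q : Ω) ^ r • φ (R.F x))
    (hN : ∀ x, R'.N (φ x) = φ (R.N x)) {S : Submodule Ω R.V} (hS : S ≤ R.gr i)
    (hSF : ∀ x ∈ S, R.F x ∈ S) (h : SC R q i S) : SC R' q j (S.map φ) := by
  intro a y hy hy2
  have h1 : y ∈ (S ⊓ R.exc q i (-(a : ℤ))).map φ := by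
    refine comp_mem (U := fun c => (S ⊓ R.exc q i c).map φ) (indep_exc_deg hq hR' j) ?_
      (c := -(a : ℤ)) hy2 ?_
    · intro c
      rw [Submodule.map_le_iff_le_comap]
      intro z hz
      exact map_exc hq hij hgr hF (Submodule.mem_inf.1 hz).2
    · rw [← Submodule.map_iSup, homog hR hS hSF]
      exact hy
  obtain ⟨z, hz, rfl⟩ := h1
  obtain ⟨hz1, hz2⟩ := Submodule.mem_inf.1 hz
  obtain ⟨x, hx1, hx2, rfl⟩ := h a z hz1 hz2
  refine ⟨φ x, Submodule.mem_map_of_mem hx1, map_exc hq hij hgr hF hx2, ?_⟩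
  rw [pow_comm_map φ (fun x => (hN x).symm)]

/-- the excess of a cup product -/
lemma cup_exc (hq : 1 < q) {cup : R.V →ₗ[Ω] R.V →ₗ[Ω] R.V}
    (hgr : ∀ i j x y, x ∈ R.gr i → y ∈ R.gr j → cup x y ∈ R.gr (i + j))
    (hF : ∀ x y, R.F (cup x y) = cup (R.F x) (R.F y)) {i j : ℕ} {a c : ℤ} {x y : R.V}
    (hx : x ∈ R.exc q i a) (hy : y ∈ R.exc q j c) : cup x y ∈ R.exc q (i + j) (a + c) := by
  have h2 : R.exc q i a ≤ (R.exc q (i + j) (a + c)).comap (cup.flip y) := by
    refine iSup₂_le fun α hα z hz => ?_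
    have h3 : R.exc q j c ≤ (R.exc q (i + j) (a + c)).comap (cup z) := by
      refine iSup₂_le fun β hβ t ht => ?_
      obtain ⟨hz1, hz2⟩ := Submodule.mem_inf.1 hz
      obtain ⟨ht1, ht2⟩ := Submodule.mem_inf.1 ht
      have h4 := weil_mul (by omega : 0 < q) hα hβ
      rw [show (i : ℤ) + a + (j + c) = ((i + j : ℕ) : ℤ) + (a + c) by push_cast; ring] at h4
      refine Submodule.mem_iSup_of_mem _ (Submodule.mem_iSup_of_mem h4 ?_)
      refine Submodule.mem_inf.2 ⟨hgr i j z t hz1 ht1, ?_⟩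
      have h5 := gen_tmul hz2 ht2
      have h6 := gen_map (g := R.F) (TensorProduct.lift cup) (fun v => ?_) h5
      · rwa [TensorProduct.lift.tmul] at h6
      · induction v using TensorProduct.induction_on with
        | zero => simp
        | tmul a b =>
          rw [TensorProduct.map_tmul, TensorProduct.lift.tmul, TensorProduct.lift.tmul]
          exact hF a b
        | add a b ha hb => rw [map_add, map_add, map_add, map_add, ha, hb]
    exact h3 hy
  exact h2 hx

/-- a pure subspace is a representation of `sl(2)` -/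
lemma PureOn.exists_sl2 [IsAlgClosed Ω] (hq : 1 < q) (hR : R.IsCoh q) {m : ℕ}
    {S : Submodule Ω R.V} (hS : S ≤ R.gr m) (hF : ∀ x ∈ S, R.F x ∈ S) (hN : ∀ x ∈ S, R.N x ∈ S)
    (h : PureOn R q m S) : ∃ (ι : Type) (_ : Fintype ι) (b : Basis ι Ω S) (a : ι → ℤ)
      (e h : Module.End Ω S), IsSl2 (R.N.restrict hN) b a e h ∧
        ∀ i, (b i : R.V) ∈ R.exc q m (a i) := by
  have := hR.finite
  have hc := (pureOn_iff hq hR hS hF hN).1 h
  have hc2 := (centred_comap (W := fun c => S ⊓ R.exc q m c) hN (fun c => inf_le_left)).2 hc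
  have hi := internal_comap (W := fun c => S ⊓ R.exc q m c)
    ((indep_exc_deg hq hR m).mono fun c => inf_le_right) (homog hR hS hF)
  obtain ⟨St⟩ := Pool.Agent.Y153.MW.stA Ω S
    (fun c => (S ⊓ R.exc q m c).comap S.subtype) (R.N.restrict hN) hi (by
      intro c x hx
      have hx' := Submodule.mem_inf.1 (Submodule.mem_comap.1 hx)
      refine Submodule.mem_comap.2 (Submodule.mem_inf.2 ⟨?_, ?_⟩)
      · exact ((R.N.restrict hN) x).2
      · exact N_exc hq hR m c _ hx'.2)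
  have ht := (Pool.Agent.Y614.MW.stF Ω S _ _ hi St).1 hc2
  obtain ⟨e, h, hs⟩ := Pool.Agent.Y664.MW.t_B2 Ω S _ _ St
  refine ⟨_, inferInstance, St.b, _, e, h, hs, ?_⟩
  rintro ⟨s, i⟩
  have h1 := St.mem s i
  rw [ht s] at h1
  exact (Submodule.mem_inf.1 (Submodule.mem_comap.1 h1)).2

lemma sc_cup [IsAlgClosed Ω] (hq : 1 < q) (hR : R.IsCoh q) {cup : R.V →ₗ[Ω] R.V →ₗ[Ω] R.V}
    (hgr : ∀ i j x y, x ∈ R.gr i → y ∈ R.gr j → cup x y ∈ R.gr (i + j))
    (hcF : ∀ x y, R.F (cup x y) = cup (R.F x) (R.F y))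
    (hcN : ∀ x y, R.N (cup x y) = cup (R.N x) y + cup x (R.N y))
    {i j : ℕ} {S S' : Submodule Ω R.V} (hS : S ≤ R.gr i) (hF : ∀ x ∈ S, R.F x ∈ S)
    (hN : ∀ x ∈ S, R.N x ∈ S) (hS' : S' ≤ R.gr j) (hF' : ∀ x ∈ S', R.F x ∈ S')
    (hN' : ∀ x ∈ S', R.N x ∈ S') (h : PureOn R q i S) (h' : PureOn R q j S') :
    SC R q (i + j) (Submodule.map₂ cup S S') := by
  obtain ⟨ι, hι, b, a, e, g, hs, hb⟩ := h.exists_sl2 hq hR hS hF hN
  obtain ⟨ι', hι', b', a', e', g', hs', hb'⟩ := h'.exists_sl2 hq hR hS' hF' hN'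
  have hT := Pool.Agent.Y210.MW.t_B3 Ω S S' (R.N.restrict hN) ι b a e g (R.N.restrict hN') ι' b' a'
    e' g' hs hs'
  obtain ⟨φ, hφ⟩ : ∃ φ : (S ⊗[Ω] S') →ₗ[Ω] R.V, φ = TensorProduct.lift
    ((cup.comp S.subtype).compl₂ S'.subtype) := ⟨_, rfl⟩
  have hφt : ∀ (x : S) (y : S'), φ (x ⊗ₜ y) = cup x y := by
    intro x y
    rw [hφ, TensorProduct.lift.tmul]
    rfl
  have hrange : LinearMap.range φ = Submodule.map₂ cup S S' := by
    apply le_antisymm
    · rintro _ ⟨t, rfl⟩
      induction t using TensorProduct.induction_on with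
      | zero => rw [map_zero]; exact Submodule.zero_mem _
      | tmul x y =>
        rw [hφt]
        exact Submodule.apply_mem_map₂ _ x.2 y.2
      | add x y hx hy => rw [map_add]; exact Submodule.add_mem _ hx hy
    · rw [Submodule.map₂_le]
      intro x hx y hy
      exact ⟨(⟨x, hx⟩ : S) ⊗ₜ (⟨y, hy⟩ : S'), hφt _ _⟩
  intro m y hy hy2
  rw [← hrange] at hy ⊢
  refine sl2_image hT φ ?_ (W := fun c => R.exc q (i + j) c) (indep_exc_deg hq hR (i + j)) ?_ m hy hy2
  · intro t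
    induction t using TensorProduct.induction_on with
    | zero => simp
    | tmul x y =>
      rw [LinearMap.add_apply, TensorProduct.map_tmul, TensorProduct.map_tmul, map_add, hφt, hφt,
        hφt, hcN]
      rfl
    | add x y hx hy => rw [map_add, map_add, map_add, map_add, hx, hy]
  · rintro ⟨k, l⟩
    rw [Basis.tensorProduct_apply, hφt]
    exact cup_exc hq hgr hcF (hb k) (hb' l)

end Pool.Agent.H66PP
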